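import Pool.Agent.VU.End.Every
import Pool.Agent.LU.Cones

/-!
# VU, E4: the exact dimension if the number of large points is at most `δ r`
-/

set_option autoImplicit false

namespace Pool.Agent.VU

open Finset MvPolynomial Pool.Agent.H18.Fat Pool.Agent.H21.HD Pool.Agent.H21.NX Pool.Agent.V8
open Pool.Agent.H18.Ex (Kind ell GM)
open Pool.Agent.H21.NX.GenBX (gdim_attained)

/-- Points of multiplicities less than `d` (`d ≥ 2`). -/
private theorem All_lin (d : ℕ) (hd2 : 2 ≤ d) : ∃ δ : ℝ, 0 < δ ∧ δ ≤ 1 ∧ ∃ r₀ : ℕ,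
    ∀ r, r₀ ≤ r → ∀ (k : ℕ) (m : Fin k → ℕ), (∀ i, 1 ≤ m i ∧ m i + 1 ≤ d) →
      (((univ.filter fun i => d + 1 < 2 * m i).card : ℕ) : ℝ) ≤ δ * r →
      ForGeneralPoints r k fun p => (Module.finrank ℂ (fatForms r d p m) : ℤ) =
        max (fro r (fun i => d + 1 - m i) univ d) 0 := by
  classical
  obtain ⟨δ, hδ, r₀, h₀⟩ := kill_everyU d
  obtain ⟨δ', hδ', hδδ, hδ1⟩ : ∃ δ' : ℝ, 0 < δ' ∧ δ' ≤ δ ∧ δ' ≤ 1 :=
    ⟨min δ 1, lt_min hδ one_pos, min_le_left _ _, min_le_right _ _⟩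
  refine ⟨δ', hδ', hδ1, r₀ + 1, fun r hr k m hm hcard => ?_⟩
  have hr0 : (0 : ℝ) ≤ (r : ℝ) := Nat.cast_nonneg _
  have hcard1 : (univ.filter fun i => d + 1 < 2 * m i).card ≤ r := by
    have h1 := hcard.trans (mul_le_mul_of_nonneg_right hδ1 hr0)
    rw [one_mul] at h1
    exact_mod_cast h1
  have hm' : ∀ i, 1 ≤ m i ∧ m i ≤ d := fun i => by
    have := hm i
    omega
  obtain ⟨I, hI⟩ : ∃ I : Finset (Fin k), I = univ.filter fun i => d + 1 < 2 * m i := ⟨_, rfl⟩
  rw [← hI] at hcard hcard1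
  have hnI : ∀ i, i ∉ I → 2 * m i ≤ d + 1 := by
    intro i hi
    rw [hI, mem_filter, not_and, not_lt] at hi
    exact hi (mem_univ i)
  have hp : ∀ i j, i ≠ j → i ∉ I → j ∉ I → m i + m j ≤ d + 1 := by
    intro i j _ hi hj
    have := hnI i hi
    have := hnI j hj
    omega
  obtain ⟨X, hX⟩ : ∃ X : ℕ, X = (fro r (fun i => d + 1 - m i) univ d).toNat := ⟨_, rfl⟩
  obtain ⟨J, hJ⟩ : ∃ J : Fin I.card → ℕ, J = fun i => m (I.equivFin.symm i) := ⟨_, rfl⟩
  have hJ1 : ∀ i, 1 ≤ J i ∧ J i ≤ d := by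
    intro i
    rw [hJ]
    exact hm' _
  have hfro := fro_eq_NJ r d k m I (by omega) hm' hp
  rw [← hJ] at hfro
  obtain ⟨S, hS⟩ : ∃ S : Multiset ℕ, S = Iᶜ.val.map m + Multiset.replicate X 1 := ⟨_, rfl⟩
  have hkill := h₀ r (by omega) I.card (hcard.trans (mul_le_mul_of_nonneg_right hδδ hr0)) J
      (fun i => by rw [hJ]; exact hm _) S (by
    intro x hx
    rw [hS, Multiset.mem_add] at hx
    rcases hx with hx | hx
    · obtain ⟨i, hi, rfl⟩ := Multiset.mem_map.1 hx
      have hi' : i ∈ Iᶜ := hi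
      rw [Finset.mem_compl] at hi'
      exact ⟨(hm i).1, hnI i hi'⟩
    · rw [Multiset.eq_of_mem_replicate hx]
      omega)
  have hGM := hkill (by
    rw [hS, Multiset.map_add, Multiset.sum_add, Multiset.map_replicate, Multiset.sum_replicate,
      Multiset.map_map, smul_eq_mul]
    have h1 : ((Iᶜ.val.map ((fun m => NJ d J (r + 1) (m - 1)) ∘ m)).sum : ℕ) =
        ∑ i ∈ Iᶜ, NJ d J (r + 1) (m i - 1) := rfl
    rw [h1, Nat.sub_self, NJ_zero d J (fun i => (hJ1 i).2), mul_one]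
    have h2 : ((∑ i ∈ Iᶜ, NJ d J (r + 1) (m i - 1) : ℕ) : ℤ) =
        ∑ i ∈ Iᶜ, (NJ d J (r + 1) (m i - 1) : ℤ) := Nat.cast_sum _ _
    omega)
  have hGM' : GM (Sx (Fin (r + 1)) d) ((univ.val.map fun i => Kind.free (m i)) +
      Multiset.replicate X (Kind.free 1)) := by
    have h1 : ((univ : Finset (Fin I.card)).val.map J).map Kind.free =
        I.val.map fun i => (Kind.free (m i) : Kind (Fin (r + 1))) := by
      rw [Multiset.map_map, hJ]
      have h2 : (univ : Finset (Fin I.card)).val.map (fun i => (I.equivFin.symm i : Fin k)) =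
          I.val := by
        have h3 := Multiset.map_univ_val_equiv I.equivFin.symm
        have h4 : (univ : Finset (Fin I.card)).val.map (fun i => (I.equivFin.symm i : Fin k)) =
            ((univ : Finset (Fin I.card)).val.map I.equivFin.symm).map Subtype.val := by
          rw [Multiset.map_map]
          rfl
        rw [h4, h3, Finset.univ_eq_attach]
        exact Multiset.attach_map_val I.val
      conv_rhs => rw [← h2]
      rw [Multiset.map_map]
      rfl
    have h2 : S.map Kind.free = (Iᶜ.val.map fun i => (Kind.free (m i) : Kind (Fin (r + 1)))) +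
        Multiset.replicate X (Kind.free 1) := by
      rw [hS, Multiset.map_add, Multiset.map_map, Multiset.map_replicate]
      rfl
    have h3 : (univ : Finset (Fin k)).val = I.val + Iᶜ.val := by
      have h4 : (univ : Finset (Fin k)) = I.disjUnion Iᶜ disjoint_compl_right := by
        rw [Finset.disjUnion_eq_union, Finset.union_compl]
      rw [h4]
      rfl
    rw [h3, Multiset.map_add, ← h1, add_assoc, ← h2]
    exact hGM
  obtain ⟨p₀, hp₀⟩ := MaxGMX.special r k d X m hGM'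
  refine ((general_finrank_le d p₀ m).and (lowK r d k (by omega) m I (by omega) hm' hp)).mono ?_
  rintro p ⟨hp1, hp2⟩
  omega

/-- The exact dimension.  Let `c` of the large points (`2 m_i > d + 1`) have multiplicity `d`, and let the
number of the other large points be at most `δ (r - c)`. -/
theorem exact_coneU (d : ℕ) : ∃ δ : ℝ, 0 < δ ∧ δ ≤ 1 ∧ ∃ r₀ : ℕ, ∀ (r k : ℕ) (m : Fin k → ℕ)
    (c : ℕ), (∀ i, 1 ≤ m i ∧ m i ≤ d) →
    (univ.filter fun i => d + 1 < 2 * m i ∧ m i = d).card = c → c + r₀ ≤ r →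
    (((univ.filter fun i => d + 1 < 2 * m i ∧ m i < d).card : ℕ) : ℝ) ≤ δ * ((r - c : ℕ) : ℝ) →
    ForGeneralPoints r k fun p => (Module.finrank ℂ (fatForms r d p m) : ℤ) =
      max (fro r (fun i => d + 1 - m i) univ d) 0 := by
  classical
  obtain ⟨δ, hδ, hδ1, r₂, h₂⟩ : ∃ δ : ℝ, 0 < δ ∧ δ ≤ 1 ∧ ∃ r₀ : ℕ, ∀ r, r₀ ≤ r →
      ∀ (k : ℕ) (m : Fin k → ℕ), (∀ i, 1 ≤ m i ∧ m i ≤ d) →
      (univ.filter fun i => d + 1 < 2 * m i ∧ m i = d).card = 0 →
      (((univ.filter fun i => d + 1 < 2 * m i ∧ m i < d).card : ℕ) : ℝ) ≤ δ * r →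
      ForGeneralPoints r k fun p => (Module.finrank ℂ (fatForms r d p m) : ℤ) =
        max (fro r (fun i => d + 1 - m i) univ d) 0 := by
    rcases Nat.lt_or_ge d 2 with hd | hd
    · obtain ⟨r₂, h₂⟩ := Pool.Agent.V8.exact_dim d 0
      refine ⟨1, one_pos, le_rfl, r₂, fun r hr k m hm _ _ => h₂ r hr k m hm ?_⟩
      rw [Nat.le_zero, card_eq_zero, filter_eq_empty_iff]
      intro i _
      have := hm i
      omega
    · obtain ⟨δ, hδ, hδ1, r₂, h₂⟩ := All_lin d hd
      refine ⟨δ, hδ, hδ1, r₂, fun r hr k m hm hC hN => ?_⟩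
      rw [card_eq_zero, filter_eq_empty_iff] at hC
      have h3 : ∀ i, 1 ≤ m i ∧ m i + 1 ≤ d := by
        intro i
        have h4 := hm i
        have h5 := hC (mem_univ i)
        omega
      refine h₂ r hr k m h3 ?_
      have h6 : (univ.filter fun i => d + 1 < 2 * m i) =
          univ.filter fun i => d + 1 < 2 * m i ∧ m i < d := by
        refine filter_congr fun i _ => ?_
        have := h3 i
        omega
      rw [h6]
      exact hN
  refine ⟨δ, hδ, hδ1, r₂ + 1, fun r k m c hm hC hr hcase => ?_⟩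
  have hup := Pool.Agent.LU.upper_gen d (fun r n _ => r₂ ≤ r ∧ (n : ℝ) ≤ δ * (r : ℝ))
    (fun r k m hm hC hQ => by
      have hg : Gen r (Fin k) fun p => (Module.finrank ℂ (fatForms r d p m) : ℤ) =
          max (fro r (fun i => d + 1 - m i) univ d) 0 := h₂ r (by omega) k m hm hC hQ.2
      obtain ⟨p, hp1, hp2⟩ := (hg.and (gen_gdim r d m)).exists
      rw [← hp2, hp1]) c r (by omega) k m hm hC ⟨by omega, hcase⟩
  obtain ⟨I, hI⟩ : ∃ I : Finset (Fin k), I = univ.filter fun i => d + 1 < 2 * m i := ⟨_, rfl⟩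
  have hnI : ∀ i, i ∉ I → 2 * m i ≤ d + 1 := by
    intro i hi
    rw [hI, mem_filter, not_and, not_lt] at hi
    exact hi (mem_univ i)
  have hIc : I.card ≤ r := by
    have h2 : I ⊆ (univ.filter fun i => d + 1 < 2 * m i ∧ m i < d) ∪
        (univ.filter fun i => d + 1 < 2 * m i ∧ m i = d) := by
      intro i hi
      rw [hI, mem_filter] at hi
      rw [mem_union, mem_filter, mem_filter]
      rcases Nat.lt_or_ge (m i) d with h3 | h3
      · exact Or.inl ⟨mem_univ _, hi.2, h3⟩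
      · exact Or.inr ⟨mem_univ _, hi.2, le_antisymm (hm i).2 h3⟩
    have h3 := (card_le_card h2).trans (card_union_le _ _)
    have h4 : (univ.filter fun i => d + 1 < 2 * m i ∧ m i < d).card ≤ r - c := by
      have h6 := hcase.trans (mul_le_mul_of_nonneg_right hδ1 (Nat.cast_nonneg _))
      rw [one_mul] at h6
      exact_mod_cast h6
    omega
  have hlow := Pool.Agent.V8.lowK r d k (by omega) m I hIc hm (fun i j _ hi hj => by
    have := hnI i hi
    have := hnI j hj
    omega)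
  have hg : Gen r (Fin k) fun p => Module.finrank ℂ (fatForms r d p m) = gdim r d m :=
    gen_gdim r d m
  have hg2 : Gen r (Fin k) fun p =>
      fro r (fun i => d + 1 - m i) univ d ≤ (Module.finrank ℂ (fatForms r d p m) : ℤ) := hlow
  have hfin : Gen r (Fin k) fun p => (Module.finrank ℂ (fatForms r d p m) : ℤ) =
        max (fro r (fun i => d + 1 - m i) univ d) 0 := by
    refine (hg.and hg2).mono ?_
    rintro p ⟨hp1, hp2⟩
    rw [← hp1] at hup
    omega
  exact hfin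

/-- E4: at most `δ r` large points. -/
theorem exact_dimU (d : ℕ) : ∃ δ : ℝ, 0 < δ ∧ ∃ r₀ : ℕ, ∀ r, r₀ ≤ r → ∀ (k : ℕ) (m : Fin k → ℕ),
    (∀ i, 1 ≤ m i ∧ m i ≤ d) →
    (((univ.filter fun i => d + 1 < 2 * m i).card : ℕ) : ℝ) ≤ δ * r →
      ForGeneralPoints r k fun p => (Module.finrank ℂ (fatForms r d p m) : ℤ) =
        max (fro r (fun i => d + 1 - m i) univ d) 0 := by
  classical
  obtain ⟨δ, hδ, hδ1, r₀, h⟩ := exact_coneU d
  refine ⟨δ / 2, by linarith, 2 * r₀ + 1, fun r hr k m hm hcard => ?_⟩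
  have hr0 : (0 : ℝ) ≤ (r : ℝ) := Nat.cast_nonneg _
  have h1 : (univ.filter fun i => d + 1 < 2 * m i ∧ m i = d).card ≤
      (univ.filter fun i => d + 1 < 2 * m i).card :=
    card_le_card fun i hi => by
      rw [mem_filter] at hi ⊢
      exact ⟨hi.1, hi.2.1⟩
  have h2 : (univ.filter fun i => d + 1 < 2 * m i ∧ m i < d).card ≤
      (univ.filter fun i => d + 1 < 2 * m i).card :=
    card_le_card fun i hi => by
      rw [mem_filter] at hi ⊢
      exact ⟨hi.1, hi.2.1⟩
  have h3 : 2 * (univ.filter fun i => d + 1 < 2 * m i).card ≤ r := by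
    have h4 : ((2 * (univ.filter fun i => d + 1 < 2 * m i).card : ℕ) : ℝ) ≤ (r : ℝ) := by
      push_cast
      nlinarith
    exact_mod_cast h4
  refine h r k m _ hm rfl (by omega) ?_
  have h5 : ((r - (univ.filter fun i => d + 1 < 2 * m i ∧ m i = d).card : ℕ) : ℝ) =
      (r : ℝ) - ((univ.filter fun i => d + 1 < 2 * m i ∧ m i = d).card : ℕ) := by
    rw [Nat.cast_sub (by omega)]
  have h6 : (((univ.filter fun i => d + 1 < 2 * m i ∧ m i = d).card : ℕ) : ℝ) ≤ (r : ℝ) / 2 := by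
    have h7 : ((2 * (univ.filter fun i => d + 1 < 2 * m i ∧ m i = d).card : ℕ) : ℝ) ≤ (r : ℝ) := by
      exact_mod_cast (by omega : 2 * (univ.filter fun i => d + 1 < 2 * m i ∧ m i = d).card ≤ r)
    push_cast at h7
    linarith
  rw [h5]
  have h8 : (((univ.filter fun i => d + 1 < 2 * m i ∧ m i < d).card : ℕ) : ℝ) ≤
      (((univ.filter fun i => d + 1 < 2 * m i).card : ℕ) : ℝ) := by exact_mod_cast h2
  have h9 : δ * ((r : ℝ) / 2) ≤
      δ * ((r : ℝ) - ((univ.filter fun i => d + 1 < 2 * m i ∧ m i = d).card : ℕ)) :=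
    mul_le_mul_of_nonneg_left (by linarith) hδ.le
  linarith

end Pool.Agent.VU
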