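import Pool.Agent.V8.End.Num

/-!
# VU: the numbers `NJ`
-/

set_option autoImplicit false
set_option linter.unusedSectionVars false

namespace Pool.Agent.VU

open Finset
open Pool.Agent.V8 (NJ)
open Pool.Agent.H18.Ex (Kind ell GM)

/-- The squarefree exponents are there. -/
private theorem Num_choose_le (d : ℕ) {K : ℕ} (J : Fin K → ℕ) (hJ : ∀ i, J i + 1 ≤ d) (n k : ℕ)
    (hK : K ≤ n) : n.choose k ≤ NJ d J n k := by
  classical
  have hJ' : ∀ i, J i ≤ d := fun i => by have := hJ i; omega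
  set F : ℕ → ℕ := fun i => if i ≤ k then Nat.multichoose (n - K) (k - i) else 0 with hF
  have hch : ∀ i ≤ k, (n - K).choose (k - i) ≤ F i := by
    intro i hi
    simp only [hF, if_pos hi]
    rcases Nat.eq_zero_or_pos (k - i) with h | h
    · rw [h]
      simp
    · rw [Nat.multichoose_eq]
      exact Nat.choose_le_choose _ (by omega)
  -- Vandermonde
  have h1 : n.choose k ≤ ∑ i ∈ range (K + 1), K.choose i • F i := by
    have h2 : n.choose k = ∑ i ∈ range (k + 1), K.choose i * (n - K).choose (k - i) := by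
      conv_lhs => rw [← Nat.add_sub_cancel' hK]
      rw [Nat.add_choose_eq]
      exact Finset.Nat.sum_antidiagonal_eq_sum_range_succ
        (fun i j => K.choose i * (n - K).choose j) k
    rw [h2]
    calc ∑ i ∈ range (k + 1), K.choose i * (n - K).choose (k - i)
        ≤ ∑ i ∈ range (k + 1), K.choose i * F i := by
          refine sum_le_sum fun i hi => Nat.mul_le_mul_left _ (hch i ?_)
          have := mem_range.1 hi
          omega
      _ ≤ ∑ i ∈ range (K + 1), K.choose i * F i := by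
          refine sum_le_sum_of_ne_zero fun i _ hne => mem_range.2 ?_
          by_contra hcon
          refine hne ?_
          rw [Nat.choose_eq_zero_of_lt (by omega), zero_mul]
      _ = ∑ i ∈ range (K + 1), K.choose i • F i := by simp only [smul_eq_mul]
  have h2 : ∑ i ∈ range (K + 1), K.choose i • F i =
      ∑ S ∈ (univ : Finset (Fin K)).powerset, F S.card := by
    rw [Finset.sum_powerset_apply_card F, card_univ, Fintype.card_fin]
  rw [h2] at h1
  refine h1.trans ?_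
  unfold NJ
  -- the indicator functions
  let ind : Finset (Fin K) → Fin K → ℕ := fun S i => if i ∈ S then 1 else 0
  have hsum : ∀ S, ∑ i, ind S i = S.card := by
    intro S
    simp [ind]
  have hinj : Function.Injective ind := by
    intro S T h
    ext i
    have h3 := congrFun h i
    simp only [ind] at h3
    by_cases h4 : i ∈ S <;> by_cases h5 : i ∈ T <;> simp_all
  have h3 : ∑ S ∈ (univ : Finset (Fin K)).powerset, F S.card =
      ∑ S ∈ (univ : Finset (Fin K)).powerset.filter (fun S => S.card ≤ k),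
        Nat.multichoose (n - K) (k - S.card) := by
    rw [Finset.sum_filter]
  rw [h3]
  have h4 : ∑ S ∈ (univ : Finset (Fin K)).powerset.filter (fun S => S.card ≤ k),
        Nat.multichoose (n - K) (k - S.card) =
      ∑ b ∈ ((univ : Finset (Fin K)).powerset.filter (fun S => S.card ≤ k)).image ind,
        Nat.multichoose (n - K) (k - ∑ i, b i) := by
    rw [Finset.sum_image (fun S _ T _ h => hinj h)]
    exact sum_congr rfl fun S _ => by rw [hsum]
  rw [h4]
  refine sum_le_sum_of_subset fun b hb => ?_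
  obtain ⟨S, hS, rfl⟩ := mem_image.1 hb
  rw [mem_filter, Pool.Agent.V8.mem_BxJ hJ', hsum]
  refine ⟨fun i => ?_, (mem_filter.1 hS).2⟩
  have := hJ i
  simp only [ind]
  split_ifs <;> omega

/-- The ratio of the numbers of squarefree and of all exponents. -/
private theorem Num_ratio (n k : ℕ) (hk : k ≤ n) (hn : 1 ≤ n) :
    (1 - 2 * (k : ℝ) ^ 2 / n) * (Nat.multichoose n k : ℝ) ≤ (n.choose k : ℝ) := by
  rcases Nat.eq_zero_or_pos k with rfl | hk0
  · simp
  have hn0 : (0 : ℝ) < n := by exact_mod_cast hn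
  have hP : (0 : ℝ) < ((n + k - 1 : ℕ) : ℝ) := by exact_mod_cast (show 0 < n + k - 1 by omega)
  have hfac : (0 : ℝ) < (k.factorial : ℝ) := by exact_mod_cast k.factorial_pos
  have h1 : (((n + 1 - k : ℕ) : ℝ) ^ k) / (k.factorial : ℝ) ≤ (n.choose k : ℝ) :=
    Nat.pow_le_choose k n
  have h2 : (Nat.multichoose n k : ℝ) ≤ (((n + k - 1 : ℕ) : ℝ) ^ k) / (k.factorial : ℝ) := by
    rw [Nat.multichoose_eq]
    exact Nat.choose_le_pow_div k (n + k - 1)
  by_cases hneg : 1 - 2 * (k : ℝ) ^ 2 / n ≤ 0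
  · exact le_trans (mul_nonpos_of_nonpos_of_nonneg hneg (Nat.cast_nonneg _)) (Nat.cast_nonneg _)
  push Not at hneg
  refine le_trans (mul_le_mul_of_nonneg_left h2 hneg.le) (le_trans ?_ h1)
  rw [← mul_div_assoc]
  refine div_le_div_of_nonneg_right ?_ hfac.le
  -- Bernoulli
  set x : ℝ := ((n + 1 - k : ℕ) : ℝ) / ((n + k - 1 : ℕ) : ℝ) with hx
  have hx1 : x = 1 + -(2 * ((k : ℝ) - 1) / ((n + k - 1 : ℕ) : ℝ)) := by
    rw [hx, Nat.cast_sub (by omega), Nat.cast_sub (by omega)]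
    push_cast
    have : (n : ℝ) + k - 1 ≠ 0 := by
      have h3 : ((n + k - 1 : ℕ) : ℝ) = (n : ℝ) + k - 1 := by
        rw [Nat.cast_sub (by omega)]
        push_cast
        ring
      rw [← h3]
      exact hP.ne'
    field_simp
    ring
  have hx0 : 0 ≤ x := div_nonneg (Nat.cast_nonneg _) hP.le
  have h3 := one_add_mul_le_pow (show (-2 : ℝ) ≤ -(2 * ((k : ℝ) - 1) / ((n + k - 1 : ℕ) : ℝ)) by
    linarith) k
  rw [← hx1] at h3
  have hk1 : (1 : ℝ) ≤ k := by exact_mod_cast hk0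
  have h4 : (k : ℝ) * (2 * ((k : ℝ) - 1) / ((n + k - 1 : ℕ) : ℝ)) ≤ 2 * (k : ℝ) ^ 2 / n := by
    rw [← mul_div_assoc]
    refine div_le_div₀ (by positivity) ?_ hn0 ?_
    · nlinarith
    · exact_mod_cast (show n ≤ n + k - 1 by omega)
  have h5 : 1 - 2 * (k : ℝ) ^ 2 / n ≤ x ^ k := by linarith
  calc (1 - 2 * (k : ℝ) ^ 2 / n) * ((n + k - 1 : ℕ) : ℝ) ^ k ≤ x ^ k * ((n + k - 1 : ℕ) : ℝ) ^ k :=
        mul_le_mul_of_nonneg_right h5 (pow_nonneg hP.le k)
    _ = ((n + 1 - k : ℕ) : ℝ) ^ k := by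
        rw [← mul_pow, hx, div_mul_cancel₀ _ hP.ne']

/-- E1 (Pool/Agent/VU/End/Num.lean), as V8 `NJ_ge`, uniform in `K ≤ δ r`: only exponents with a
square at one of the `K` variables are missing. -/
theorem NJ_geU (d : ℕ) (η : ℝ) (hη : 0 < η) : ∃ r₀ : ℕ, ∀ r, r₀ ≤ r → ∀ K : ℕ, K ≤ r →
    ∀ J : Fin K → ℕ, (∀ i, J i + 1 ≤ d) → ∀ m, 1 ≤ m → m ≤ d + 1 →
      (1 - η) * (ell r m : ℝ) ≤ (NJ d J (r + 1) (m - 1) : ℝ) := by
  obtain ⟨N, hN⟩ := exists_nat_gt (2 * (d : ℝ) ^ 2 / η)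
  refine ⟨N + d, fun r hr K hK J hJ m hm hmd => ?_⟩
  obtain ⟨k, rfl⟩ : ∃ k, m = k + 1 := ⟨m - 1, by omega⟩
  rw [Nat.add_sub_cancel]
  have hell : ell r (k + 1) = Nat.multichoose (r + 1) k := by
    unfold ell
    rw [Nat.multichoose_eq, show k + 1 + r - 1 = r + k by omega, show r + 1 + k - 1 = r + k by omega]
    exact Nat.choose_symm_add
  rw [hell]
  have h1 := Num_ratio (r + 1) k (by omega) (by omega)
  have h2 : ((r + 1).choose k : ℝ) ≤ (NJ d J (r + 1) k : ℝ) := by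
    exact_mod_cast Num_choose_le d J hJ (r + 1) k (by omega)
  refine le_trans ?_ (h1.trans h2)
  refine mul_le_mul_of_nonneg_right ?_ (Nat.cast_nonneg _)
  have hr0 : (0 : ℝ) < ((r + 1 : ℕ) : ℝ) := by exact_mod_cast Nat.succ_pos r
  have h3 : 2 * (k : ℝ) ^ 2 / ((r + 1 : ℕ) : ℝ) ≤ η := by
    have h5 : (k : ℝ) ≤ d := by exact_mod_cast (show k ≤ d by omega)
    have h6 : 2 * (d : ℝ) ^ 2 / η < ((r + 1 : ℕ) : ℝ) :=
      hN.trans_le (by exact_mod_cast (show N ≤ r + 1 by omega))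
    rw [div_lt_iff₀ hη] at h6
    have h7 : (k : ℝ) ^ 2 ≤ (d : ℝ) ^ 2 := pow_le_pow_left₀ (Nat.cast_nonneg _) h5 2
    rw [div_le_iff₀ hr0]
    nlinarith
  linarith

end Pool.Agent.VU
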