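import Pool.Agent.VU.Final
import Pool.Agent.VU.End.Kill
import Pool.Agent.LU.Final
import Pool.Agent.V8.End.All

/-!
# VU, E3: all configurations with at most `δ r` points of multiplicities `J i < d` and points with
`2 m ≤ d + 1`
-/

set_option autoImplicit false

namespace Pool.Agent.VU

open Finset
open Pool.Agent.V8 (KillAt NJ)
open Pool.Agent.H18.Ex (Kind ell GM)

private theorem Every_choose (r d : ℕ) : (d + r).choose r = ell r (d + 1) := by
  unfold ell
  rw [show d + 1 + r - 1 = d + r by omega]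

theorem kill_everyU (d : ℕ) : ∃ δ : ℝ, 0 < δ ∧ ∃ r₀ : ℕ, ∀ r, r₀ ≤ r → ∀ K : ℕ, (K : ℝ) ≤ δ * r →
    ∀ J : Fin K → ℕ, (∀ i, 1 ≤ J i ∧ J i + 1 ≤ d) → ∀ S : Multiset ℕ,
    (∀ m ∈ S, 1 ≤ m ∧ 2 * m ≤ d + 1) → KillAt d J r S := by
  rcases Nat.even_or_odd d with ⟨c, hc⟩ | ⟨c, hc⟩
  · -- even degree
    obtain ⟨δ, hδ, r₀, h⟩ := Pool.Agent.LU.noncritU d 1 one_pos
    exact ⟨δ, hδ, r₀, fun r hr K hK J hJ S hS =>
      h r hr K hK J hJ S hS fun M hM => absurd hM (by omega)⟩
  · -- odd degree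
    obtain ⟨M, hM⟩ : ∃ M, M = c + 1 := ⟨_, rfl⟩
    have hd : d = 2 * M - 1 := by omega
    rcases Nat.lt_or_ge M 2 with h1 | h1
    · have hd1 : d = 1 := by omega
      subst hd1
      obtain ⟨r₀, h⟩ := Pool.Agent.V8.kill_every 1 (fun i : Fin 0 => i.elim0) (fun i => i.elim0)
      refine ⟨1, one_pos, r₀, fun r hr K hK J hJ S hS => ?_⟩
      rcases K with _ | K
      · have hJ0 : J = fun i : Fin 0 => i.elim0 := funext fun i => i.elim0
        rw [hJ0]
        exact h r hr S hS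
      · have := hJ 0
        omega
    · obtain ⟨ε, hε, δ₁, hδ₁, r₁, h₁⟩ := critU M h1
      obtain ⟨δ, hδ, r₀, h⟩ := kill_allU M (by omega)
        ⟨ε, hε, δ₁, hδ₁, r₁, fun r hr K hK J hJ => h₁ r hr K hK J fun i => (hJ i).2⟩
        (fun η hη => by
          obtain ⟨δ₂, hδ₂, r₂, h₂⟩ := Pool.Agent.LU.noncritU d η hη
          refine ⟨δ₂, hδ₂, r₂, fun r hr K hK J hJ S hS hcount => ?_⟩
          rw [← hd]
          refine h₂ r hr K hK J (by rw [hd]; exact hJ) S
            (fun m hm => ⟨(hS m hm).1, by have := (hS m hm).2; omega⟩) fun M' hM' => ?_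
          have hMM : M' = M := by omega
          rw [hMM]
          rw [← hd, Every_choose] at hcount
          exact hcount)
      refine ⟨δ, hδ, r₀, fun r hr K hK J hJ S hS => ?_⟩
      have h3 := h r hr K hK J (by rw [← hd]; exact hJ) S
        (fun m hm => ⟨(hS m hm).1, by have := (hS m hm).2; omega⟩)
      rw [← hd] at h3
      exact h3

end Pool.Agent.VU
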